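import Pool.Agent.W425.GN.Defs4

set_option autoImplicit false

namespace Pool.Agent.W816.GN.R1

open MvPolynomial Pool.Agent.W425.GN

section
variable {κ L : Type} [Field κ] [Field L] [Algebra κ L] {σ : Type}

/-- apply a linear map to all coefficients -/
noncomputable def Lam (lam : L →ₗ[κ] κ) (P : MvPolynomial σ L) : MvPolynomial σ κ :=
  ∑ m ∈ P.support, monomial m (lam (coeff m P))

theorem coeff_Lam (lam : L →ₗ[κ] κ) (P : MvPolynomial σ L) (m : σ →₀ ℕ) :
    coeff m (Lam lam P) = lam (coeff m P) := by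
  classical
  unfold Lam
  rw [coeff_sum]
  simp only [coeff_monomial]
  rw [Finset.sum_ite_eq' P.support m (fun x => lam (coeff x P))]
  by_cases h : m ∈ P.support
  · rw [if_pos h]
  · rw [if_neg h, notMem_support_iff.1 h, map_zero]

theorem Lam_add (lam : L →ₗ[κ] κ) (P Q : MvPolynomial σ L) :
    Lam lam (P + Q) = Lam lam P + Lam lam Q := by
  ext m
  rw [coeff_add, coeff_Lam, coeff_Lam, coeff_Lam, coeff_add, map_add]

theorem Lam_monomial (lam : L →ₗ[κ] κ) (m : σ →₀ ℕ) (c : L) :
    Lam lam (monomial m c) = monomial m (lam c) := by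
  classical
  ext m'
  rw [coeff_Lam, coeff_monomial, coeff_monomial]
  split_ifs
  · rfl
  · exact map_zero lam

theorem Lam_mul_map (lam : L →ₗ[κ] κ) (U : MvPolynomial σ L) (ψ : MvPolynomial σ κ) :
    Lam lam (U * MvPolynomial.map (algebraMap κ L) ψ) = Lam lam U * ψ := by
  classical
  ext m
  rw [coeff_Lam, coeff_mul, coeff_mul, map_sum]
  refine Finset.sum_congr rfl (fun p _ => ?_)
  rw [coeff_Lam, coeff_map, mul_comm, ← Algebra.smul_def, map_smul, smul_eq_mul, mul_comm]

theorem Lam_one (lam : L →ₗ[κ] κ) (h1 : lam 1 = 1) : Lam lam (1 : MvPolynomial σ L) = 1 := by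
  have : (1 : MvPolynomial σ L) = monomial 0 1 := rfl
  rw [this, Lam_monomial, h1]
  rfl

end

section
variable {κ L : Type} [Field κ] [Field L] [Algebra κ L] {n : ℕ}

theorem act_mono {R : Type} [CommRing R] (m : Sy n →₀ ℕ) (c : R) (s : ℕ)
    (φ : MvPolynomial (Fin n) R) :
    act (monomial m c) s φ = C c * act (monomial m 1) s φ := by
  have h : monomial m c = c • monomial m (1 : R) := by
    rw [smul_monomial, smul_eq_mul, mul_one]
  unfold act
  rw [h, map_smul, smul_eq_C_mul]

theorem Lam_act (hA3 : TaskA3) (lam : L →ₗ[κ] κ) (P : MvPolynomial (Sy n) L) (s : ℕ)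
    (φ : MvPolynomial (Fin n) κ) :
    Lam lam (act P s (MvPolynomial.map (algebraMap κ L) φ)) = act (Lam lam P) s φ := by
  induction P using MvPolynomial.induction_on' with
  | monomial m c =>
    obtain ⟨-, -, h3, -, -⟩ := hA3 (n := n) (R := κ)
    have h4 := h3 (algebraMap κ L) (monomial m 1) s φ
    rw [map_monomial, map_one (algebraMap κ L)] at h4
    rw [act_mono, ← h4, Lam_mul_map, Lam_monomial, act_mono m (lam c)]
    congr 1
    exact Lam_monomial lam 0 c
  | add P Q hP hQ =>
    have e1 : act (P + Q) s (MvPolynomial.map (algebraMap κ L) φ) =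
        act P s (MvPolynomial.map (algebraMap κ L) φ) +
        act Q s (MvPolynomial.map (algebraMap κ L) φ) := (actL s _).map_add P Q
    have e2 : act (Lam lam P + Lam lam Q) s φ = act (Lam lam P) s φ + act (Lam lam Q) s φ :=
      (actL s φ).map_add _ _
    rw [e1, Lam_add, Lam_add, e2, hP, hQ]

theorem key (hA3 : TaskA3) (lam : L →ₗ[κ] κ) (f : MvPolynomial (Fin n) κ) (α : κ) (m s : ℕ)
    (u : MvPolynomial (Fin n) L) (P Q : MvPolynomial (Sy n) L)
    (h : u * (C (((s : L) - algebraMap κ L α) ^ m) * MvPolynomial.map (algebraMap κ L) f ^ s) =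
      act P s (MvPolynomial.map (algebraMap κ L) f ^ (s + 1)) +
        C (((s : L) - algebraMap κ L α) ^ (m + 1)) *
          act Q s (MvPolynomial.map (algebraMap κ L) f ^ s)) :
    Lam lam u * (C (((s : κ) - α) ^ m) * f ^ s) =
      act (Lam lam P) s (f ^ (s + 1)) + C (((s : κ) - α) ^ (m + 1)) * act (Lam lam Q) s (f ^ s) := by
  have e1 : ∀ j : ℕ, (C (((s : L) - algebraMap κ L α) ^ j) : MvPolynomial (Fin n) L) =
      MvPolynomial.map (algebraMap κ L) (C (((s : κ) - α) ^ j)) := by
    intro j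
    rw [map_C, map_pow (algebraMap κ L), map_sub, map_natCast]
  rw [e1, e1, ← map_pow, ← map_pow, ← map_mul] at h
  rw [mul_comm (MvPolynomial.map (algebraMap κ L) (C (((s : κ) - α) ^ (m + 1))))] at h
  have h2 := congrArg (Lam lam) h
  rw [Lam_mul_map, Lam_add, Lam_mul_map, Lam_act hA3, Lam_act hA3] at h2
  rw [h2, mul_comm (act (Lam lam Q) s (f ^ s))]

end

theorem taskR1 : TaskR1 := by
  intro _ hA3 κ L _ _ _ n f α m
  obtain ⟨lam, hlam⟩ := (Algebra.linearMap κ L).exists_leftInverse_of_injective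
    (LinearMap.ker_eq_bot.2 (algebraMap κ L).injective)
  have h1 : lam 1 = 1 := by
    have h2 := LinearMap.congr_fun hlam 1
    rw [LinearMap.comp_apply, Algebra.linearMap_apply, map_one] at h2
    exact h2
  constructor
  · rintro ⟨P, Q, s0, h⟩
    refine ⟨Lam lam P, Lam lam Q, s0, fun s hs => ?_⟩
    have h2 := key hA3 lam f α m s 1 P Q (by rw [one_mul]; exact h s hs)
    rw [Lam_one lam h1, one_mul] at h2
    exact h2
  · rintro ⟨u, P, Q, s0, hu, h⟩
    refine ⟨Lam lam u, Lam lam P, Lam lam Q, s0, ?_, fun s hs => ?_⟩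
    · have h2 := coeff_Lam lam u 0
      rw [← constantCoeff_eq, ← constantCoeff_eq, hu, h1] at h2
      exact h2
    · exact key hA3 lam f α m s u P Q (h s hs)

end Pool.Agent.W816.GN.R1
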