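import Pool.Agent.W425.GN.Defs

set_option autoImplicit false

namespace Pool.Agent.W816.GN.A2

open MvPolynomial Pool.Agent.W425.GN

variable {n : ℕ} {R : Type} [CommRing R]

theorem dd_monomial (β : Fin n → ℕ) (w : Fin n →₀ ℕ) :
    dd β (monomial w (1 : R)) = monomial (w - Finsupp.equivFunOnFinite.symm β)
      (∏ i, ((w i).descFactorial (β i) : R)) := by
  have h := (basisMonomials (Fin n) R).constr_basis R (fun w =>
    monomial (w - Finsupp.equivFunOnFinite.symm β) (∏ i, ((w i).descFactorial (β i) : R))) w
  rw [coe_basisMonomials] at h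
  exact h

theorem act_monomial (s : ℕ) (φ : MvPolynomial (Fin n) R) (m : Sy n →₀ ℕ) :
    act (monomial m (1 : R)) s φ = ((s : R) ^ m none) • ((∏ i, X i ^ m (some (Sum.inl i))) *
      dd (fun i => m (some (Sum.inr i))) φ) := by
  have h := (basisMonomials (Sy n) R).constr_basis R (fun m =>
    ((s : R) ^ m none) • ((∏ i, X i ^ m (some (Sum.inl i))) *
      dd (fun i => m (some (Sum.inr i))) φ)) m
  rw [coe_basisMonomials] at h
  exact h

theorem desc_id (w b : ℕ) :
    (w + 1).descFactorial b = w.descFactorial b + b * w.descFactorial (b - 1) := by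
  rcases b with _ | b
  · simp
  · rw [Nat.succ_descFactorial_succ, Nat.descFactorial_succ, Nat.add_sub_cancel]
    rcases Nat.lt_or_ge w b with h | h
    · rw [Nat.descFactorial_eq_zero_iff_lt.2 h]
      simp
    · obtain ⟨d, rfl⟩ := Nat.exists_eq_add_of_le h
      rw [Nat.add_sub_cancel_left]
      ring

theorem dd_X_monomial (β : Fin n → ℕ) (i : Fin n) (w : Fin n →₀ ℕ) :
    dd β (X i * monomial w (1 : R)) = X i * dd β (monomial w (1 : R)) +
      (β i : R) • dd (Function.update β i (β i - 1)) (monomial w (1 : R)) := by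
  have h1 : (X i : MvPolynomial (Fin n) R) * monomial w (1 : R) =
      monomial (Finsupp.single i 1 + w) (1 : R) := by
    rw [X, monomial_mul, one_mul]
  rw [h1, dd_monomial, dd_monomial, dd_monomial, X, monomial_mul, one_mul, smul_monomial,
    smul_eq_mul]
  have e1 : ∀ γ : Fin n → ℕ, ∀ v : Fin n →₀ ℕ, (∏ j, ((v j).descFactorial (γ j) : R)) =
      ((v i).descFactorial (γ i) : R) *
        ∏ j ∈ Finset.univ.erase i, ((v j).descFactorial (γ j) : R) := by
    intro γ v
    exact (Finset.mul_prod_erase Finset.univ
      (fun j => ((v j).descFactorial (γ j) : R)) (Finset.mem_univ i)).symm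
  rw [e1 β w, e1 β (Finsupp.single i 1 + w), e1 (Function.update β i (β i - 1)) w]
  have e2 : (∏ j ∈ Finset.univ.erase i,
      (((Finsupp.single i 1 + w : Fin n →₀ ℕ) j).descFactorial (β j) : R)) =
      ∏ j ∈ Finset.univ.erase i, ((w j).descFactorial (β j) : R) := by
    refine Finset.prod_congr rfl (fun j hj => ?_)
    have hji : j ≠ i := (Finset.mem_erase.1 hj).1
    rw [Finsupp.add_apply, Finsupp.single_eq_of_ne hji, zero_add]
  have e3 : (∏ j ∈ Finset.univ.erase i,
      ((w j).descFactorial (Function.update β i (β i - 1) j) : R)) =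
      ∏ j ∈ Finset.univ.erase i, ((w j).descFactorial (β j) : R) := by
    refine Finset.prod_congr rfl (fun j hj => ?_)
    have hji : j ≠ i := (Finset.mem_erase.1 hj).1
    rw [Function.update_of_ne hji]
  rw [e2, e3, Function.update_self, Finsupp.add_apply, Finsupp.single_eq_same]
  set D : R := ∏ j ∈ Finset.univ.erase i, ((w j).descFactorial (β j) : R) with hD
  -- exponents
  have x1 : (monomial (Finsupp.single i 1 + (w - Finsupp.equivFunOnFinite.symm β)))
      (((w i).descFactorial (β i) : R) * D) =
      monomial (Finsupp.single i 1 + w - Finsupp.equivFunOnFinite.symm β)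
      (((w i).descFactorial (β i) : R) * D) := by
    rcases Nat.lt_or_ge (w i) (β i) with h | h
    · rw [Nat.descFactorial_eq_zero_iff_lt.2 h]
      simp
    · congr 2
      ext j
      rw [Finsupp.add_apply, Finsupp.tsub_apply, Finsupp.tsub_apply, Finsupp.add_apply,
        Finsupp.equivFunOnFinite_symm_apply_apply]
      by_cases hji : j = i
      · subst hji
        rw [Finsupp.single_eq_same]
        omega
      · rw [Finsupp.single_eq_of_ne hji]
        omega
  have x2 : (monomial (w - Finsupp.equivFunOnFinite.symm (Function.update β i (β i - 1))))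
      ((β i : R) * (((w i).descFactorial (β i - 1) : R) * D)) =
      monomial (Finsupp.single i 1 + w - Finsupp.equivFunOnFinite.symm β)
      ((β i : R) * (((w i).descFactorial (β i - 1) : R) * D)) := by
    rcases Nat.eq_zero_or_pos (β i) with h | h
    · rw [h]
      simp
    · congr 2
      ext j
      rw [Finsupp.tsub_apply, Finsupp.tsub_apply, Finsupp.add_apply,
        Finsupp.equivFunOnFinite_symm_apply_apply, Finsupp.equivFunOnFinite_symm_apply_apply]
      by_cases hji : j = i
      · subst hji
        rw [Finsupp.single_eq_same, Function.update_self]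
        omega
      · rw [Finsupp.single_eq_of_ne hji, Function.update_of_ne hji]
        omega
  rw [x1, x2, ← map_add]
  congr 1
  have h2 := desc_id (w i) (β i)
  rw [add_comm 1 (w i), h2]
  push_cast
  ring

theorem dd_X (β : Fin n → ℕ) (i : Fin n) (φ : MvPolynomial (Fin n) R) :
    dd β (X i * φ) = X i * dd β φ +
      (β i : R) • dd (Function.update β i (β i - 1)) φ := by
  have h : (dd β : MvPolynomial (Fin n) R →ₗ[R] _) ∘ₗ LinearMap.mulLeft R (X i) =
      LinearMap.mulLeft R (X i) ∘ₗ dd β + (β i : R) • dd (Function.update β i (β i - 1)) := by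
    refine (basisMonomials (Fin n) R).ext (fun w => ?_)
    rw [coe_basisMonomials]
    exact dd_X_monomial β i w
  exact congrArg (fun L : MvPolynomial (Fin n) R →ₗ[R] MvPolynomial (Fin n) R => L φ) h

/-- right multiplication by `x_i` -/
noncomputable def LX (i : Fin n) : MvPolynomial (Sy n) R →ₗ[R] MvPolynomial (Sy n) R :=
  LinearMap.mulLeft R (X (some (Sum.inl i))) +
    (pderiv (some (Sum.inr i)) : Derivation R (MvPolynomial (Sy n) R) _).toLinearMap

theorem act_LX (i : Fin n) (P : MvPolynomial (Sy n) R) (s : ℕ) (φ : MvPolynomial (Fin n) R) :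
    act (LX i P) s φ = act P s (X i * φ) := by
  have h : actL s φ ∘ₗ LX i = actL s (X i * φ) := by
    refine (basisMonomials (Sy n) R).ext (fun m => ?_)
    rw [coe_basisMonomials]
    show act (LX i (monomial m (1 : R))) s φ = act (monomial m (1 : R)) s (X i * φ)
    have h0 : LX i (monomial m (1 : R)) =
        monomial (Finsupp.single (some (Sum.inl i)) 1 + m) (1 : R) +
        (m (some (Sum.inr i)) : R) • monomial (m - Finsupp.single (some (Sum.inr i)) 1) (1 : R) := by
      show X (some (Sum.inl i)) * monomial m (1 : R) +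
        pderiv (some (Sum.inr i)) (monomial m (1 : R)) = _
      rw [X, monomial_mul, one_mul, pderiv_monomial, one_mul, smul_monomial, smul_eq_mul, mul_one]
    have h1 : act (LX i (monomial m (1 : R))) s φ =
        act (monomial (Finsupp.single (some (Sum.inl i)) 1 + m) (1 : R)) s φ +
        (m (some (Sum.inr i)) : R) •
          act (monomial (m - Finsupp.single (some (Sum.inr i)) 1) (1 : R)) s φ := by
      rw [h0]
      unfold act
      rw [map_add, map_smul]
    rw [h1, act_monomial, act_monomial, act_monomial, dd_X]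
    have g1 : (fun j : Fin n => (Finsupp.single (some (Sum.inl i)) 1 + m : Sy n →₀ ℕ)
        (some (Sum.inr j))) = fun j => m (some (Sum.inr j)) := by
      funext j
      rw [Finsupp.add_apply, Finsupp.single_eq_of_ne (by simp), zero_add]
    have g2 : (Finsupp.single (some (Sum.inl i)) 1 + m : Sy n →₀ ℕ) none = m none := by
      rw [Finsupp.add_apply, Finsupp.single_eq_of_ne (by simp), zero_add]
    have g3 : (∏ j : Fin n, (X j : MvPolynomial (Fin n) R) ^
        ((Finsupp.single (some (Sum.inl i)) 1 + m : Sy n →₀ ℕ) (some (Sum.inl j)))) =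
        X i * ∏ j : Fin n, X j ^ m (some (Sum.inl j)) := by
      rw [← Finset.mul_prod_erase (Finset.univ)
          (fun j : Fin n => (X j : MvPolynomial (Fin n) R) ^
            ((Finsupp.single (some (Sum.inl i)) 1 + m : Sy n →₀ ℕ) (some (Sum.inl j))))
          (Finset.mem_univ i),
        ← Finset.mul_prod_erase (Finset.univ)
          (fun j : Fin n => (X j : MvPolynomial (Fin n) R) ^ m (some (Sum.inl j))) (Finset.mem_univ i),
        ← mul_assoc]
      congr 1
      · rw [Finsupp.add_apply, Finsupp.single_eq_same, pow_add, pow_one]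
      · refine Finset.prod_congr rfl (fun j hj => ?_)
        have hji : j ≠ i := (Finset.mem_erase.1 hj).1
        rw [Finsupp.add_apply, Finsupp.single_eq_of_ne (by simpa using hji), zero_add]
    have g4 : (fun j : Fin n => (m - Finsupp.single (some (Sum.inr i)) 1 : Sy n →₀ ℕ)
        (some (Sum.inr j))) = Function.update (fun j => m (some (Sum.inr j))) i
          (m (some (Sum.inr i)) - 1) := by
      funext j
      rw [Finsupp.tsub_apply]
      by_cases hji : j = i
      · subst hji
        rw [Finsupp.single_eq_same, Function.update_self]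
      · rw [Finsupp.single_eq_of_ne (by simpa using hji), Function.update_of_ne hji, Nat.sub_zero]
    have g5 : (m - Finsupp.single (some (Sum.inr i)) 1 : Sy n →₀ ℕ) none = m none := by
      rw [Finsupp.tsub_apply, Finsupp.single_eq_of_ne (by simp), Nat.sub_zero]
    have g6 : (∏ j : Fin n, (X j : MvPolynomial (Fin n) R) ^
        ((m - Finsupp.single (some (Sum.inr i)) 1 : Sy n →₀ ℕ) (some (Sum.inl j)))) =
        ∏ j : Fin n, X j ^ m (some (Sum.inl j)) := by
      refine Finset.prod_congr rfl (fun j _ => ?_)
      rw [Finsupp.tsub_apply, Finsupp.single_eq_of_ne (by simp), Nat.sub_zero]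
    rw [g1, g2, g3, g4, g5, g6]
    simp only [MvPolynomial.smul_eq_C_mul]
    ring
  exact congrArg (fun L : MvPolynomial (Sy n) R →ₗ[R] MvPolynomial (Fin n) R => L P) h

theorem act_add (P : MvPolynomial (Sy n) R) (s : ℕ) (φ ψ : MvPolynomial (Fin n) R) :
    act P s (φ + ψ) = act P s φ + act P s ψ := by
  have h : (actL s (φ + ψ) : MvPolynomial (Sy n) R →ₗ[R] _) = actL s φ + actL s ψ := by
    refine (basisMonomials (Sy n) R).ext (fun m => ?_)
    rw [coe_basisMonomials]
    show act (monomial m (1 : R)) s (φ + ψ) =
      act (monomial m (1 : R)) s φ + act (monomial m (1 : R)) s ψ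
    rw [act_monomial, act_monomial, act_monomial, map_add, mul_add, smul_add]
  exact congrArg (fun L : MvPolynomial (Sy n) R →ₗ[R] MvPolynomial (Fin n) R => L P) h

theorem act_smul (P : MvPolynomial (Sy n) R) (s : ℕ) (c : R) (φ : MvPolynomial (Fin n) R) :
    act P s (c • φ) = c • act P s φ := by
  have h : (actL s (c • φ) : MvPolynomial (Sy n) R →ₗ[R] _) = c • actL s φ := by
    refine (basisMonomials (Sy n) R).ext (fun m => ?_)
    rw [coe_basisMonomials]
    show act (monomial m (1 : R)) s (c • φ) = c • act (monomial m (1 : R)) s φ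
    rw [act_monomial, act_monomial, map_smul, mul_smul_comm, smul_comm]
  exact congrArg (fun L : MvPolynomial (Sy n) R →ₗ[R] MvPolynomial (Fin n) R => L P) h

theorem taskA2 : TaskA2 := by
  intro n R _ g
  induction g using MvPolynomial.induction_on with
  | C c =>
    refine ⟨c • LinearMap.id, fun P s φ => ?_⟩
    rw [← smul_eq_C_mul, act_smul]
    exact (actL s φ).map_smul c P
  | add g h hg hh =>
    obtain ⟨L1, h1⟩ := hg
    obtain ⟨L2, h2⟩ := hh
    refine ⟨L1 + L2, fun P s φ => ?_⟩
    rw [add_mul, act_add, ← h1, ← h2]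
    exact (actL s φ).map_add (L1 P) (L2 P)
  | mul_X g i hg =>
    obtain ⟨L1, h1⟩ := hg
    refine ⟨LX i ∘ₗ L1, fun P s φ => ?_⟩
    rw [mul_assoc, ← h1, ← act_LX]
    rfl

end Pool.Agent.W816.GN.A2
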